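import Mathlib
import Pool.Agent.R958.Stub

/-!
# Stable multi-matchings on the line with odd degrees and an infinite component

If the number of stubs has a tail of order at least `n ^ (-1/2)`, then the stable multi-matching of
the Poisson process on the line has an infinite component. Such laws may give any mass `p < 1` to
the odd integers.
-/

set_option autoImplicit false
open MeasureTheory ProbabilityTheory
open scoped ENNReal NNReal

namespace Pool.Agent.Results.MP_32afb7_pr.OddPercolates

open Pool.Agent.R958.Stub

/-- `G` is a stable multi-matching of the points `x 0, x 1, …` of the line, where `x i` has `D i`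
stubs: every `x i` has exactly `D i` edges and, for all `i ≠ j`, the points `x i` and `x j` are
joined by an edge or one of them has no edge longer than `|x i - x j|`. -/
def IsStableMultiMatching (x : ℕ → ℝ) (D : ℕ → ℕ) (G : SimpleGraph ℕ) : Prop :=
  (∀ i, (G.neighborSet i).encard = D i) ∧
    ∀ i j, i ≠ j → G.Adj i j ∨ (¬ ∃ k, G.Adj i k ∧ |x i - x j| < |x i - x k|) ∨
      (¬ ∃ k, G.Adj j k ∧ |x j - x i| < |x j - x k|)

/-- For the Poisson process of intensity one on the line with independent numbers of stubs with
law `μ`, almost surely every stable multi-matching has an infinite component. -/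
def HasInfiniteComponent (μ : Measure ℕ) : Prop :=
  ∀ (Ω : Type) [MeasurableSpace Ω] (P : Measure Ω) [IsProbabilityMeasure P]
    (X : ℕ → Ω → ℝ) (D : ℕ → Ω → ℕ), IsMarkedPoisson P X D μ →
    ∀ᵐ ω ∂P, ∀ G : SimpleGraph ℕ,
      IsStableMultiMatching (fun n => X n ω) (fun n => D n ω) G →
      ∃ C : G.ConnectedComponent, C.supp.Infinite

lemma of_tail (μ : Measure ℕ) [IsProbabilityMeasure μ] (c : ℝ) (hc : 0 < c)
    (hμ : ∀ n : ℕ, 1 ≤ n → c / √n ≤ (μ (Set.Ici n)).toReal) : HasInfiniteComponent μ := by
  intro Ω _ P _ X D h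
  filter_upwards [heavy_percolates h hc hμ] with ω hω G hG
  refine hω G (fun i j hij hadj hw => ?_)
  have hd : ∀ i, ¬ (G.neighborSet i).encard < D i ω := fun i => by
    rw [hG.1 i]; exact lt_irrefl _
  obtain ⟨h1, h2⟩ := hw
  have h1' := h1.resolve_left (hd i)
  have h2' := h2.resolve_left (hd j)
  simp only [Real.dist_eq] at h1' h2'
  rcases hG.2 i j hij with h3 | h3 | h3
  · exact hadj h3
  · exact h3 h1'
  · exact h3 h2'

/-- Laws of the number of stubs with tail at least `c n ^ (-1/2)` give an infinite component, and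
for every `p < 1` there is a law on the positive integers which gives mass `p` to the odd integers
and for which the stable multi-matching has an infinite component. -/
theorem result :
    (∀ (μ : Measure ℕ) [IsProbabilityMeasure μ] (c : ℝ), 0 < c →
      (∀ n : ℕ, 1 ≤ n → c / √n ≤ (μ (Set.Ici n)).toReal) → HasInfiniteComponent μ) ∧
    (∀ p : ℝ, 0 ≤ p → p < 1 → ∃ μ : Measure ℕ, IsProbabilityMeasure μ ∧ μ {0} = 0 ∧
      μ {n | Odd n} = ENNReal.ofReal p ∧ HasInfiniteComponent μ) := by
  refine ⟨fun μ _ c hc h => of_tail μ c hc h, fun p hp0 hp1 => ?_⟩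
  have hpr := mixLaw_prob hp0 hp1.le heavy
  refine ⟨mixLaw p heavy, hpr, ?_, ?_, ?_⟩
  · have h1 : heavy {0} = 0 :=
      measure_mono_null (fun n hn => by
        rw [Set.mem_singleton_iff] at hn
        simp [hn]) heavy_small
    simp [mixLaw, h1]
  · have h1 : heavy {n | Odd n} = 0 := by
      rw [heavy_apply, ENNReal.tsum_eq_zero]
      intro j
      have : (2 * 4 ^ j : ℕ) ∉ {n : ℕ | Odd n} := by
        simp
      rw [Set.indicator_of_notMem this, mul_zero]
    simp [mixLaw, h1]
  · exact of_tail _ ((1 - p) * (1 / 4)) (by nlinarith) (mixLaw_tail hp0 hp1 heavy_tail)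

end Pool.Agent.Results.MP_32afb7_pr.OddPercolates
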